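import Pool.Agent.Lib.MP_2fd4e2_co.Arc.Sep

/-!
A path in the upper half plane and its image under a contraction towards the real axis.
-/

set_option autoImplicit false

namespace Pool.Agent.SymTrap

open Complex Set Filter Topology Pool.Agent.ArcTrap

theorem sign_const {h : ℂ → ℝ} (hh : Continuous h) {S : Set ℂ} (hS : IsPreconnected S)
    (h0 : ∀ z ∈ S, h z ≠ 0) {z w : ℂ} (hz : z ∈ S) (hw : w ∈ S) :
    (h z < 0 → h w < 0) ∧ (0 < h z → 0 < h w) := by
  constructor
  · intro h1
    by_contra hcon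
    push Not at hcon
    obtain ⟨x, hx, hx'⟩ := hS.intermediate_value hz hw hh.continuousOn ⟨h1.le, hcon⟩
    exact h0 x hx hx'
  · intro h1
    by_contra hcon
    push Not at hcon
    obtain ⟨x, hx, hx'⟩ := hS.intermediate_value hw hz hh.continuousOn ⟨hcon, h1.le⟩
    exact h0 x hx hx'

/-- contraction by the factor `l` along the lines `x + k y = const` towards the real axis -/
def Mm (k l : ℝ) (z : ℂ) : ℂ := ⟨z.re + (1 - l) * k * z.im, l * z.im⟩

/-- its inverse -/
noncomputable def Mi (k l : ℝ) (z : ℂ) : ℂ := ⟨z.re - (1 - l) * k * (z.im / l), z.im / l⟩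

theorem Mi_Mm {k l : ℝ} (hl : l ≠ 0) (z : ℂ) : Mi k l (Mm k l z) = z := by
  unfold Mi Mm
  apply Complex.ext
  · simp only; field_simp; ring
  · simp only; field_simp

theorem Mm_Mi {k l : ℝ} (hl : l ≠ 0) (z : ℂ) : Mm k l (Mi k l z) = z := by
  unfold Mi Mm
  apply Complex.ext
  · simp only; field_simp; ring
  · simp only; field_simp

theorem continuous_Mm (k l : ℝ) : Continuous (Mm k l) := by
  unfold Mm
  apply cmk'
  · exact Complex.continuous_re.add (continuous_const.mul Complex.continuous_im)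
  · exact continuous_const.mul Complex.continuous_im

theorem continuous_Mi (k l : ℝ) : Continuous (Mi k l) := by
  unfold Mi
  apply cmk'
  · exact Complex.continuous_re.sub (continuous_const.mul (Complex.continuous_im.div_const _))
  · exact Complex.continuous_im.div_const _

theorem sym_core {a b : ℝ} (hab : a < b) {c : ℝ → ℂ} (hcc : Continuous c)
    (hca : c a = ⟨a, 0⟩) (hcb : c b = ⟨b, 0⟩) (hpos : ∀ t ∈ Ioo a b, 0 < (c t).im)
    {k l : ℝ} (hk : 0 < k) (hl : 0 < l) (hl1 : l < 1) {s0 : ℝ} (hs0 : s0 ∈ Ioo a b)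
    (hX : b ≤ (c s0).re + k * (c s0).im) :
    ∃ t ∈ Ioo a b, ∃ u ∈ Ioo a b, c u = Mm k l (c t) := by
  by_contra hno
  push Not at hno
  have hnn : ∀ t ∈ Icc a b, 0 ≤ (c t).im := by
    intro t ht
    rcases eq_or_lt_of_le ht.1 with h1 | h1
    · rw [← h1, hca]
    · rcases eq_or_lt_of_le ht.2 with h2 | h2
      · rw [h2, hcb]
      · exact (hpos t ⟨h1, h2⟩).le
  have hIoo : ∀ t ∈ Icc a b, 0 < (c t).im → t ∈ Ioo a b := by
    intro t ht h
    rcases eq_or_lt_of_le ht.1 with h1 | h1
    · rw [← h1, hca] at h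
      exact absurd h (lt_irrefl _)
    · rcases eq_or_lt_of_le ht.2 with h2 | h2
      · rw [h2, hcb] at h
        exact absurd h (lt_irrefl _)
      · exact ⟨h1, h2⟩
  obtain ⟨h, hhc, hz, hmid⟩ := sep (f := fun _ => (0 : ℝ)) continuous_const hab hcc hca hcb
    (fun t ht hh => by
      have := hpos t ht
      rw [hh.2.2] at this
      exact lt_irrefl _ this)
  set J := Jset (fun _ => (0 : ℝ)) a b c with hJ
  have hJim : ∀ z ∈ J, 0 ≤ z.im := by
    rintro z (⟨t, ht, rfl⟩ | ⟨_, _, h3⟩)
    · exact hnn t ht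
    · exact h3.ge
  have hJim' : ∀ z ∈ J, 0 < z.im → ∃ t ∈ Ioo a b, c t = z := by
    rintro z (⟨t, ht, rfl⟩ | ⟨_, _, h3⟩) h4
    · exact ⟨t, hIoo t ht h4, rfl⟩
    · simp only at h3
      rw [h3] at h4
      exact absurd h4 (lt_irrefl _)
  set M := (a + b) / 2 with hM
  -- the lower half plane
  obtain ⟨y1, hy1, hy1'⟩ := mem_nhdsGT_iff_exists_Ioo_subset.mp hmid
  have hy1pos : 0 < y1 := hy1
  have hlow : ∀ z : ℂ, z.im < 0 → 0 < h z := by
    intro z hzim
    have hS : IsPreconnected {z : ℂ | z.im < 0} := (convex_halfSpace_im_lt 0).isPreconnected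
    have hp := (hy1' (show y1 / 2 ∈ Ioo 0 y1 by constructor <;> linarith)).2
    refine (sign_const hhc hS (fun w hw h0 => ?_) (z := ⟨M, 0 - y1 / 2⟩) ?_ hzim).2 hp
    · have := hJim w (hz w h0)
      have hw' : w.im < 0 := hw
      linarith
    · show (0 : ℝ) - y1 / 2 < 0
      linarith
  -- the region beyond the extreme supporting line
  set Xf : ℂ → ℝ := fun z => z.re + k * z.im with hXf
  have hXc : Continuous Xf := Complex.continuous_re.add (continuous_const.mul Complex.continuous_im)
  obtain ⟨t0, ht0', hmax'⟩ : ∃ t0 ∈ Ioo a b, ∀ t ∈ Icc a b, Xf (c t) ≤ Xf (c t0) := by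
    obtain ⟨t0, ht0, hmax⟩ := (isCompact_Icc (a := a) (b := b)).exists_isMaxOn
      (nonempty_Icc.mpr hab.le) ((hXc.comp hcc).continuousOn)
    have hmax' : ∀ t ∈ Icc a b, Xf (c t) ≤ Xf (c t0) := fun t ht => hmax ht
    have hXs : Xf (c s0) ≤ Xf (c t0) := hmax' s0 ⟨hs0.1.le, hs0.2.le⟩
    have hX' : b ≤ Xf (c s0) := hX
    rcases eq_or_lt_of_le ht0.1 with h1 | h1
    · exfalso
      have h2 : Xf (c t0) = a := by rw [← h1, hca]; simp [hXf]
      linarith
    · rcases eq_or_lt_of_le ht0.2 with h2 | h2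
      · refine ⟨s0, hs0, fun t ht => ?_⟩
        have h3 : Xf (c t0) = b := by rw [h2, hcb]; simp [hXf]
        have := hmax' t ht
        linarith
      · exact ⟨t0, ⟨h1, h2⟩, hmax'⟩
  have hXb : b ≤ Xf (c t0) := le_trans hX (hmax' s0 ⟨hs0.1.le, hs0.2.le⟩)
  set X0 := Xf (c t0) with hX0
  have hJX : ∀ z ∈ J, Xf z ≤ X0 := by
    rintro z (⟨t, ht, rfl⟩ | ⟨_, h2, h3⟩)
    · exact hmax' t ht
    · simp only at h3
      simp only [hXf]
      rw [h3]
      linarith
  have hXregion : ∀ z : ℂ, X0 < Xf z → 0 < h z := by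
    intro z hzX
    have hS : IsPreconnected {z : ℂ | X0 < Xf z} := by
      apply Convex.isPreconnected
      intro x hx y hy s t hs ht hst
      have e : Xf (s • x + t • y) = s * Xf x + t * Xf y := by
        simp only [hXf, Complex.add_re, Complex.add_im, Complex.real_smul, Complex.re_ofReal_mul,
          Complex.im_ofReal_mul]
        ring
      show X0 < Xf (s • x + t • y)
      rw [e]
      have hx' : X0 < Xf x := hx
      have hy' : X0 < Xf y := hy
      rcases eq_or_lt_of_le hs with h1 | h1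
      · rw [← h1] at hst ⊢
        have : t = 1 := by linarith
        rw [this]; linarith
      · have k1 := mul_lt_mul_of_pos_left hx' h1
        have k2 := mul_le_mul_of_nonneg_left hy'.le ht
        have k3 : s * X0 + t * X0 = X0 := by rw [← add_mul, hst, one_mul]
        linarith
    have hq : 0 < h ⟨X0 + 1 + k, -1⟩ := hlow _ (show (-1 : ℝ) < 0 by norm_num)
    refine (sign_const hhc hS (fun w hw h0 => ?_) (z := ⟨X0 + 1 + k, -1⟩) ?_ hzX).2 hq
    · have := hJX w (hz w h0)
      have hw' : X0 < Xf w := hw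
      linarith
    · show X0 < X0 + 1 + k + k * (-1)
      linarith
  -- the region above
  obtain ⟨t2, ht2, hmax2⟩ := (isCompact_Icc (a := a) (b := b)).exists_isMaxOn
    (nonempty_Icc.mpr hab.le) ((Complex.continuous_im.comp hcc).continuousOn)
  have hmax2' : ∀ t ∈ Icc a b, (c t).im ≤ (c t2).im := fun t ht => hmax2 ht
  set H := (c t2).im with hH
  have hH0 : 0 ≤ H := hnn t2 ht2
  have hJH : ∀ z ∈ J, z.im ≤ H := by
    rintro z (⟨t, ht, rfl⟩ | ⟨_, _, h3⟩)
    · exact hmax2' t ht
    · simp only at h3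
      rw [h3]; exact hH0
  have htop : ∀ z : ℂ, H < z.im → 0 < h z := by
    intro z hzim
    have hS : IsPreconnected {z : ℂ | H < z.im} := (convex_halfSpace_im_gt H).isPreconnected
    have hq : 0 < h ⟨X0 + 1, H + 1⟩ := by
      apply hXregion
      show X0 < X0 + 1 + k * (H + 1)
      have : 0 < k * (H + 1) := by positivity
      linarith
    refine (sign_const hhc hS (fun w hw h0 => ?_) (z := ⟨X0 + 1, H + 1⟩) ?_ hzim).2 hq
    · have := hJH w (hz w h0)
      have hw' : H < w.im := hw
      linarith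
    · show H < H + 1
      linarith
  -- the image of the extreme point
  have hMim : ∀ t ∈ Ioo a b, 0 < (Mm k l (c t)).im := fun t ht => mul_pos hl (hpos t ht)
  have hMJ : ∀ t ∈ Ioo a b, h (Mm k l (c t)) ≠ 0 := by
    intro t ht h0
    obtain ⟨u, hu, hcu⟩ := hJim' _ (hz _ h0) (hMim t ht)
    exact hno t ht u hu hcu
  have hM0 : 0 < h (Mm k l (c t0)) := by
    rcases lt_trichotomy (h (Mm k l (c t0))) 0 with h1 | h1 | h1
    · exfalso
      have hg : Continuous (fun ε : ℝ => h (Mm k l (c t0) + (ε : ℂ))) :=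
        hhc.comp (continuous_const.add Complex.continuous_ofReal)
      have h2 : ∀ᶠ ε : ℝ in 𝓝[>] (0 : ℝ), h (Mm k l (c t0) + (ε : ℂ)) < 0 := by
        have h3 := (hg.tendsto 0).mono_left (nhdsWithin_le_nhds (s := Ioi (0 : ℝ)))
        simp only [Complex.ofReal_zero, add_zero] at h3
        exact h3.eventually (gt_mem_nhds h1)
      obtain ⟨ε, hε1, hε2⟩ := (h2.and self_mem_nhdsWithin).exists
      have hε : 0 < ε := hε2
      have h3 : 0 < h (Mm k l (c t0) + (ε : ℂ)) := by
        apply hXregion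
        simp only [hXf, hX0, Mm, Complex.add_re, Complex.add_im, Complex.ofReal_re,
          Complex.ofReal_im, add_zero]
        linarith
      linarith
    · exact absurd h1 (hMJ t0 ht0')
    · exact h1
  have hMpos : ∀ t ∈ Ioo a b, 0 < h (Mm k l (c t)) := by
    intro t ht
    have hS : IsPreconnected ((fun t => Mm k l (c t)) '' Ioo a b) :=
      isPreconnected_Ioo.image _ ((continuous_Mm k l).comp hcc).continuousOn
    refine (sign_const hhc hS ?_ ⟨t0, ht0', rfl⟩ ⟨t, ht, rfl⟩).2 hM0
    rintro _ ⟨u, hu, rfl⟩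
    exact hMJ u hu
  -- a ball around the midpoint
  have hMc : (⟨M, 0⟩ : ℂ) ∈ (c '' Icc a b)ᶜ := by
    rintro ⟨t, ht, htx⟩
    have hre : (c t).re = M := by rw [htx]
    have him : (c t).im = 0 := by rw [htx]
    rcases eq_or_lt_of_le ht.1 with h5 | h5
    · rw [← h5, hca] at hre
      simp only at hre
      rw [hM] at hre
      linarith
    · rcases eq_or_lt_of_le ht.2 with h6 | h6
      · rw [h6, hcb] at hre
        simp only at hre
        rw [hM] at hre
        linarith
      · have := hpos t ⟨h5, h6⟩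
        linarith
  have hCcl : IsClosed (c '' Icc a b) := (isCompact_Icc.image hcc).isClosed
  obtain ⟨ρ, hρ, hball⟩ := Metric.isOpen_iff.mp hCcl.isOpen_compl _ hMc
  -- the base point
  set D := 1 + (1 + (1 - l) * k) / l with hD
  have h1l : 0 < 1 - l := by linarith
  have hDpos : 0 < D := by positivity
  obtain ⟨y, hy0, hyy1, hyρ⟩ : ∃ y > 0, y < y1 ∧ D * y < ρ := by
    refine ⟨min (y1 / 2) (ρ / (2 * D)), by positivity, ?_, ?_⟩
    · have := min_le_left (y1 / 2) (ρ / (2 * D)); linarith
    · calc D * min (y1 / 2) (ρ / (2 * D)) ≤ D * (ρ / (2 * D)) :=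
            mul_le_mul_of_nonneg_left (min_le_right _ _) hDpos.le
        _ = ρ / 2 := by field_simp
        _ < ρ := by linarith
  set m : ℂ := ⟨M, y⟩ with hm
  have hm' : h m < 0 := by
    have := (hy1' (show y ∈ Ioo 0 y1 from ⟨hy0, hyy1⟩)).1
    simp only [zero_add] at this
    exact this
  have hJclosed : ∀ z, z ∉ J → h z ≠ 0 := fun z hzJ h0 => hzJ (hz z h0)
  have hOm : ∀ z, JoinedIn Jᶜ m z → h z < 0 := by
    rintro z ⟨p, hp⟩
    have hS : IsPreconnected (range p) := isPreconnected_range p.continuous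
    refine (sign_const hhc hS ?_ ⟨0, p.source⟩ ⟨1, p.target⟩).1 hm'
    rintro _ ⟨s, rfl⟩
    exact hJclosed _ (hp s)
  have hstep0 : JoinedIn Jᶜ m (Mi k l m) := by
    apply JoinedIn.of_segment_subset
    intro w hw hwJ
    obtain ⟨θ, hθ, e1, e2⟩ := mem_seg_re hw
    simp only [Mi, hm] at e1 e2
    have hyl : y ≤ y / l := by
      rw [le_div_iff₀ hl]
      nlinarith
    have him : 0 < w.im := by
      rw [e2]
      have := mul_nonneg hθ.1 (show 0 ≤ y / l - y by linarith)
      linarith
    obtain ⟨t, ht, hct⟩ := hJim' w hwJ him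
    have hwb : w ∈ Metric.ball (⟨M, 0⟩ : ℂ) ρ := by
      rw [Metric.mem_ball, dist_eq_norm]
      refine (Complex.norm_le_abs_re_add_abs_im _).trans_lt ?_
      simp only [Complex.sub_re, Complex.sub_im, sub_zero]
      have q0 : 0 ≤ (1 - l) * k * (y / l) := by positivity
      have q1 : |w.re - M| ≤ (1 - l) * k * (y / l) := by
        have : w.re - M = -(θ * ((1 - l) * k * (y / l))) := by rw [e1]; ring
        rw [this, abs_neg, abs_of_nonneg (mul_nonneg hθ.1 q0)]
        have := mul_le_mul_of_nonneg_right hθ.2 q0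
        linarith
      have q2 : |w.im| ≤ y / l := by
        rw [abs_of_pos him, e2]
        have := mul_le_mul_of_nonneg_right hθ.2 (show 0 ≤ y / l - y by linarith)
        linarith
      have q3 : (1 - l) * k * (y / l) + y / l < D * y := by
        have : D * y = y + ((1 - l) * k * (y / l) + y / l) := by rw [hD]; field_simp; ring
        linarith
      linarith
    exact hball hwb ⟨t, ⟨ht.1.le, ht.2.le⟩, hct⟩
  have hstep : ∀ z, JoinedIn Jᶜ m z → JoinedIn Jᶜ m (Mi k l z) := by
    rintro z ⟨p, hp⟩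
    refine hstep0.trans ⟨p.map (continuous_Mi k l), ?_⟩
    intro s hs
    have hps : h (p s) < 0 := by
      have hS : IsPreconnected (range p) := isPreconnected_range p.continuous
      refine (sign_const hhc hS ?_ ⟨0, p.source⟩ ⟨s, rfl⟩).1 hm'
      rintro _ ⟨s, rfl⟩
      exact hJclosed _ (hp s)
    have hs' : Mi k l (p s) ∈ J := hs
    rcases hs' with ⟨t, ht, hct⟩ | ⟨k1, k2, k3⟩
    · have e : Mm k l (c t) = p s := by rw [hct, Mm_Mi hl.ne']
      rcases eq_or_lt_of_le (hnn t ht) with h1 | h1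
      · -- the height is zero
        have h2 : p s = c t := by
          rw [← e]
          unfold Mm
          apply Complex.ext
          · show (c t).re + (1 - l) * k * (c t).im = (c t).re
            rw [← h1]; ring
          · show l * (c t).im = (c t).im
            rw [← h1]; ring
        exact hp s (Or.inl ⟨t, ht, h2.symm⟩)
      · have := hMpos t (hIoo t ht h1)
        rw [e] at this
        linarith
    · simp only [Mi] at k1 k2 k3
      have k4 : (p s).im = 0 := by
        rcases div_eq_zero_iff.mp k3 with h1 | h1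
        · exact h1
        · exact absurd h1 hl.ne'
      rw [k4] at k1 k2
      simp only [zero_div, mul_zero, sub_zero] at k1 k2
      exact hp s (Or.inr ⟨k1, k2, k4⟩)
  have hiter : ∀ n : ℕ, JoinedIn Jᶜ m ((Mi k l)^[n] m) := by
    intro n
    induction n with
    | zero =>
      apply JoinedIn.refl
      intro hmJ
      obtain ⟨t, ht, hct⟩ := hJim' m hmJ hy0
      have hmb : m ∈ Metric.ball (⟨M, 0⟩ : ℂ) ρ := by
        rw [Metric.mem_ball, dist_eq_norm]
        refine (Complex.norm_le_abs_re_add_abs_im _).trans_lt ?_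
        simp only [hm, Complex.sub_re, Complex.sub_im, sub_self, abs_zero, zero_add, sub_zero]
        rw [abs_of_pos hy0]
        have : y ≤ D * y := by
          have : 0 ≤ (1 + (1 - l) * k) / l * y := by positivity
          rw [hD]; linarith
        linarith
      exact hball hmb ⟨t, ⟨ht.1.le, ht.2.le⟩, hct⟩
    | succ n ih =>
      rw [Function.iterate_succ_apply']
      exact hstep _ ih
  have him : ∀ n : ℕ, ((Mi k l)^[n] m).im = y / l ^ n := by
    intro n
    induction n with
    | zero => simp [hm]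
    | succ n ih =>
      rw [Function.iterate_succ_apply']
      show ((Mi k l)^[n] m).im / l = _
      rw [ih, pow_succ]
      field_simp
  have hlim : Tendsto (fun n : ℕ => y / l ^ n) atTop atTop := by
    have h1 : Tendsto (fun n : ℕ => (l⁻¹) ^ n) atTop atTop :=
      tendsto_pow_atTop_atTop_of_one_lt (one_lt_inv_iff₀.mpr ⟨hl, hl1⟩)
    have h2 := h1.const_mul_atTop hy0
    refine h2.congr fun n => ?_
    rw [inv_pow]; rfl
  obtain ⟨n, hn⟩ := (hlim.eventually (eventually_gt_atTop H)).exists
  have h1 := hOm _ (hiter n)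
  have h2 := htop _ (show H < ((Mi k l)^[n] m).im by rw [him]; exact hn)
  linarith

end Pool.Agent.SymTrap
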