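import Pool.Agent.Lib.MP_2fd4e2_co.Sym.Core

/-!
Line-symmetric Jordan curves.
-/

set_option autoImplicit false

namespace Pool.Agent.SymTrap

open Complex Set Filter Topology Pool.Agent.ArcTrap

theorem first_zero {F : ℝ → ℝ} (hF : Continuous F) {x y : ℝ} (hxy : x < y) (hx : 0 < F x)
    (hy : F y < 0) : ∃ s, x < s ∧ s < y ∧ F s = 0 ∧ ∀ r ∈ Ico x s, 0 < F r := by
  have hK : IsCompact (Icc x y ∩ {s | F s ≤ 0}) :=
    isCompact_Icc.inter_right (isClosed_le hF continuous_const)
  have hne : (Icc x y ∩ {s | F s ≤ 0}).Nonempty := ⟨y, ⟨hxy.le, le_rfl⟩, hy.le⟩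
  set s := sInf (Icc x y ∩ {s | F s ≤ 0}) with hs
  obtain ⟨⟨h1, h2⟩, h3⟩ := hK.sInf_mem hne
  rw [← hs] at h1 h2 h3
  have h3' : F s ≤ 0 := h3
  have hxs : x < s := lt_of_le_of_ne h1 (fun h => by rw [← h] at h3'; linarith)
  have hpos : ∀ r ∈ Ico x s, 0 < F r := by
    intro r hr
    by_contra hcon
    push Not at hcon
    have : s ≤ r := csInf_le hK.bddBelow ⟨⟨hr.1, hr.2.le.trans h2⟩, hcon⟩
    linarith [hr.2]
  have hs0 : F s = 0 := by
    rcases eq_or_lt_of_le h3' with h | h
    · exact h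
    · exfalso
      obtain ⟨r, hr, hr0⟩ := intermediate_value_Icc' hxs.le hF.continuousOn
        (show (0 : ℝ) ∈ Icc (F s) (F x) from ⟨h.le, hx.le⟩)
      rcases eq_or_lt_of_le hr.2 with h4 | h4
      · rw [h4] at hr0
        linarith
      · have := hpos r ⟨hr.1, h4⟩
        linarith
  exact ⟨s, hxs, lt_of_le_of_ne h2 (fun h => by rw [h] at hs0; linarith), hs0, hpos⟩

theorem sym_path {s1 s2 : ℝ} (hs : s1 < s2) {g : ℝ → ℂ} (hg : Continuous g)
    (h1 : (g s1).im = 0) (h2 : (g s2).im = 0) (hne : g s1 ≠ g s2)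
    (hpos : ∀ t ∈ Ioo s1 s2, 0 < (g t).im)
    {k l : ℝ} (hk : 0 < k) (hl : 0 < l) (hl1 : l < 1) {s0 : ℝ} (hs0 : s0 ∈ Ioo s1 s2)
    (hX1 : (g s1).re ≤ (g s0).re + k * (g s0).im) (hX2 : (g s2).re ≤ (g s0).re + k * (g s0).im) :
    ∃ t ∈ Ioo s1 s2, ∃ u ∈ Ioo s1 s2, g u = Mm k l (g t) := by
  have hd : 0 < s2 - s1 := by linarith
  rcases lt_trichotomy (g s1).re (g s2).re with h | h | h
  · set a := (g s1).re with ha
    set b := (g s2).re with hb
    have hba : 0 < b - a := by linarith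
    set τ : ℝ → ℝ := fun t => s1 + (s2 - s1) * ((t - a) / (b - a)) with hτ
    have hτc : Continuous τ := by rw [hτ]; fun_prop
    have hτI : ∀ t ∈ Ioo a b, τ t ∈ Ioo s1 s2 := by
      intro t ht
      have e1 : 0 < (t - a) / (b - a) := div_pos (by linarith [ht.1]) hba
      have e2 : (t - a) / (b - a) < 1 := by rw [div_lt_one hba]; linarith [ht.2]
      have e3 := mul_pos hd e1
      have e4 := mul_lt_mul_of_pos_left e2 hd
      simp only [hτ]
      constructor <;> linarith
    have hτa : τ a = s1 := by simp only [hτ]; rw [sub_self, zero_div]; ring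
    have hτb : τ b = s2 := by simp only [hτ]; rw [div_self hba.ne']; ring
    obtain ⟨v, hv⟩ : ∃ v ∈ Ioo a b, τ v = s0 := by
      refine ⟨a + (b - a) * ((s0 - s1) / (s2 - s1)), ?_, ?_⟩
      · have e1 : 0 < (s0 - s1) / (s2 - s1) := div_pos (by linarith [hs0.1]) hd
        have e2 : (s0 - s1) / (s2 - s1) < 1 := by rw [div_lt_one hd]; linarith [hs0.2]
        have e3 := mul_pos hba e1
        have e4 := mul_lt_mul_of_pos_left e2 hba
        constructor <;> linarith
      · simp only [hτ]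
        field_simp
        ring
    obtain ⟨t, ht, u, hu, htu⟩ := sym_core (c := fun t => g (τ t)) h (hg.comp hτc)
      (by simp only [hτa]; exact Complex.ext rfl h1) (by simp only [hτb]; exact Complex.ext rfl h2)
      (fun t ht => hpos _ (hτI t ht)) hk hl hl1 hv.1 (by simp only [hv.2]; exact hX2)
    exact ⟨τ t, hτI t ht, τ u, hτI u hu, htu⟩
  · exact absurd (Complex.ext h (by rw [h1, h2])) hne
  · set a := (g s2).re with ha
    set b := (g s1).re with hb
    have hba : 0 < b - a := by linarith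
    set τ : ℝ → ℝ := fun t => s2 - (s2 - s1) * ((t - a) / (b - a)) with hτ
    have hτc : Continuous τ := by rw [hτ]; fun_prop
    have hτI : ∀ t ∈ Ioo a b, τ t ∈ Ioo s1 s2 := by
      intro t ht
      have e1 : 0 < (t - a) / (b - a) := div_pos (by linarith [ht.1]) hba
      have e2 : (t - a) / (b - a) < 1 := by rw [div_lt_one hba]; linarith [ht.2]
      have e3 := mul_pos hd e1
      have e4 := mul_lt_mul_of_pos_left e2 hd
      simp only [hτ]
      constructor <;> linarith
    have hτa : τ a = s2 := by simp only [hτ]; rw [sub_self, zero_div]; ring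
    have hτb : τ b = s1 := by simp only [hτ]; rw [div_self hba.ne']; ring
    obtain ⟨v, hv⟩ : ∃ v ∈ Ioo a b, τ v = s0 := by
      refine ⟨a + (b - a) * ((s2 - s0) / (s2 - s1)), ?_, ?_⟩
      · have e1 : 0 < (s2 - s0) / (s2 - s1) := div_pos (by linarith [hs0.2]) hd
        have e2 : (s2 - s0) / (s2 - s1) < 1 := by rw [div_lt_one hd]; linarith [hs0.1]
        have e3 := mul_pos hba e1
        have e4 := mul_lt_mul_of_pos_left e2 hba
        constructor <;> linarith
      · simp only [hτ]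
        field_simp
        ring
    obtain ⟨t, ht, u, hu, htu⟩ := sym_core (c := fun t => g (τ t)) h (hg.comp hτc)
      (by simp only [hτa]; exact Complex.ext rfl h2) (by simp only [hτb]; exact Complex.ext rfl h1)
      (fun t ht => hpos _ (hτI t ht)) hk hl hl1 hv.1 (by simp only [hv.2]; exact hX1)
    exact ⟨τ t, hτI t ht, τ u, hτI u hu, htu⟩

theorem exp_period (s : ℝ) : Circle.exp (s - 2 * Real.pi) = Circle.exp s := by
  have h1 : Circle.exp (s - 2 * Real.pi + 2 * Real.pi) = Circle.exp (s - 2 * Real.pi) :=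
    Circle.periodic_exp (s - 2 * Real.pi)
  rw [← h1]
  congr 1
  ring

/-- Two points of a symmetric Jordan curve related by the contraction. -/
theorem sym_jordan {γ : Circle → ℂ} (hγ : Continuous γ) (hinj : Function.Injective γ)
    (hsym : ∀ z ∈ range γ, (starRingEnd ℂ) z ∈ range γ) {k l : ℝ} (hk : 0 < k) (hl : 0 < l)
    (hl1 : l < 1) {z0 : ℂ} (hz0 : z0 ∈ range γ) (him0 : z0.im ≠ 0)
    (hX : ∀ x : ℝ, (x : ℂ) ∈ range γ → x ≤ z0.re + k * |z0.im|) :
    ∃ z ∈ range γ, 0 < z.im ∧ Mm k l z ∈ range γ := by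
  wlog him : 0 < z0.im generalizing z0
  · push Not at him
    rcases eq_or_lt_of_le him with h | h
    · exact absurd h him0
    · refine this (z0 := (starRingEnd ℂ) z0) (hsym z0 hz0) (by simpa using him0) ?_ ?_
      · intro x hx
        have := hX x hx
        simpa using this
      · simpa using h
  rw [abs_of_pos him] at hX
  set g : ℝ → ℂ := fun s => γ (Circle.exp s) with hg
  have hgc : Continuous g := hγ.comp Circle.exp.continuous
  have hper : ∀ s, g (s - 2 * Real.pi) = g s := fun s => by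
    simp only [hg]; rw [exp_period]
  have hpi := Real.pi_pos
  obtain ⟨w0, hw0⟩ := hz0
  obtain ⟨θ0, rfl⟩ := Circle.exp_surjective w0
  have hθ0 : g θ0 = z0 := hw0
  obtain ⟨w1, hw1⟩ := hsym z0 ⟨_, hw0⟩
  obtain ⟨θ', hθ'⟩ := Circle.exp_surjective w1
  -- a parameter of the conjugate point in one period after the first parameter
  obtain ⟨θ1, hθ1a, hθ1b, hθ1c⟩ : ∃ θ1, θ0 < θ1 ∧ θ1 < θ0 + 2 * Real.pi ∧
      g θ1 = (starRingEnd ℂ) z0 := by
    have h2pi : 0 < 2 * Real.pi := by positivity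
    set θ1 := toIcoMod h2pi θ0 θ' with hθ1
    have hm := toIcoMod_mem_Ico h2pi θ0 θ'
    have hgθ : g θ1 = (starRingEnd ℂ) z0 := by
      have e1 : θ1 = θ' - toIcoDiv h2pi θ0 θ' • (2 * Real.pi) := rfl
      have e2 : Circle.exp θ1 = Circle.exp θ' := by
        rw [e1]
        exact Circle.periodic_exp.sub_zsmul_eq _
      simp only [hg]
      rw [e2, hθ', hw1]
    refine ⟨θ1, lt_of_le_of_ne hm.1 ?_, hm.2, hgθ⟩
    intro h
    have h3 : (starRingEnd ℂ) z0 = z0 := by rw [← hgθ, ← hθ0, h]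
    have h4 := congrArg Complex.im h3
    rw [Complex.conj_im] at h4
    linarith
  have hF : Continuous (fun s => (g s).im) := Complex.continuous_im.comp hgc
  have hneg : (g θ1).im < 0 := by rw [hθ1c, Complex.conj_im]; linarith
  have hpos0 : 0 < (g θ0).im := by rw [hθ0]; exact him
  obtain ⟨s2, a1, a2, a3, a4⟩ := first_zero hF hθ1a hpos0 hneg
  have hneg' : (g (θ1 - 2 * Real.pi)).im < 0 := by rw [hper]; exact hneg
  obtain ⟨r1, b1, b2, b3, b4⟩ := first_zero (F := fun s => (g (-s)).im)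
    (hF.comp continuous_neg) (show -θ0 < -(θ1 - 2 * Real.pi) by linarith)
    (by simp only [neg_neg]; exact hpos0) (by simp only [neg_neg]; exact hneg')
  have hne : g (-r1) ≠ g s2 := by
    intro h
    have h1 := hinj h
    rw [Circle.exp_eq_exp] at h1
    obtain ⟨m, hm⟩ := h1
    have h2 : -r1 - s2 = m * (2 * Real.pi) := by linarith
    have h3 : -(2 * Real.pi) < -r1 - s2 ∧ -r1 - s2 < 0 := by constructor <;> linarith
    rw [h2] at h3
    have h4 : (m : ℝ) < 0 := by
      by_contra hcon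
      push Not at hcon
      have := mul_nonneg hcon (show 0 ≤ 2 * Real.pi by positivity)
      linarith
    have h5 : (-1 : ℝ) < m := by
      by_contra hcon
      push Not at hcon
      have := mul_le_mul_of_nonneg_right hcon (show 0 ≤ 2 * Real.pi by positivity)
      linarith
    have h6 : m < 0 := by exact_mod_cast h4
    have h7 : (-1 : ℤ) < m := by exact_mod_cast h5
    omega
  have hposI : ∀ t ∈ Ioo (-r1) s2, 0 < (g t).im := by
    intro t ht
    rcases le_or_gt θ0 t with h | h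
    · exact a4 t ⟨h, ht.2⟩
    · have := b4 (-t) ⟨by linarith, by linarith [ht.1]⟩
      simpa using this
  have r1' : (g (-r1)).im = 0 := b3
  have hx1 : (((g (-r1)).re : ℝ) : ℂ) ∈ range γ := by
    have : (((g (-r1)).re : ℝ) : ℂ) = g (-r1) := Complex.ext rfl r1'.symm
    rw [this]; exact ⟨_, rfl⟩
  have hx2 : (((g s2).re : ℝ) : ℂ) ∈ range γ := by
    have : (((g s2).re : ℝ) : ℂ) = g s2 := Complex.ext rfl a3.symm
    rw [this]; exact ⟨_, rfl⟩
  obtain ⟨t, ht, u, hu, htu⟩ := sym_path (g := g) (show -r1 < s2 by linarith) hgc r1' a3 hne hposI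
    hk hl hl1 (s0 := θ0) ⟨by linarith, a1⟩ (by rw [hθ0]; exact hX _ hx1)
    (by rw [hθ0]; exact hX _ hx2)
  exact ⟨g t, ⟨_, rfl⟩, hposI t ht, by rw [← htu]; exact ⟨_, rfl⟩⟩

end Pool.Agent.SymTrap
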