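import Pool.Agent.Lib.MP_2fd4e2_co.Sym.Jordan

/-!
Isosceles trapezoids inscribed in line-symmetric Jordan curves.
-/

set_option autoImplicit false

namespace Pool.Agent.SymTrap

open Complex Set Filter Topology

theorem exp_coord (k φ : ℝ) : (k : ℂ) * exp (φ * I) = ⟨k * Real.cos φ, k * Real.sin φ⟩ := by
  rw [Complex.exp_mul_I]
  apply Complex.ext
  · simp [Complex.sin_ofReal_im, Complex.cos_ofReal_re]
  · simp [Complex.sin_ofReal_re, Complex.cos_ofReal_im]

theorem exp_coord' (k φ : ℝ) : (k : ℂ) * exp (-(φ * I)) = ⟨k * Real.cos φ, -(k * Real.sin φ)⟩ := by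
  rw [show -((φ : ℂ) * I) = -(φ : ℂ) * I by ring, Complex.exp_mul_I, Complex.cos_neg,
    Complex.sin_neg]
  apply Complex.ext
  · simp [Complex.sin_ofReal_im, Complex.cos_ofReal_re]
  · simp [Complex.sin_ofReal_re, Complex.cos_ofReal_im]

theorem trap_right (φ k : ℝ) (hφ : 0 < φ) (hφ' : φ < Real.pi / 2) (hk : 0 < k)
    (hk' : 2 * k * Real.cos φ < 1) {γ : Circle → ℂ} (hγ : Continuous γ)
    (hinj : Function.Injective γ) (hsym : ∀ z ∈ range γ, (starRingEnd ℂ) z ∈ range γ)
    {z0 : ℂ} (hz0 : z0 ∈ range γ) (him0 : z0.im ≠ 0)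
    (hX : ∀ x : ℝ, (x : ℂ) ∈ range γ → x ≤ z0.re + Real.tan φ * |z0.im|) :
    ∃ α β : ℂ, α ≠ 0 ∧
      ∀ z ∈ ({0, 1, 1 - k * exp (-(φ * I)), k * exp (φ * I)} : Set ℂ), α * z + β ∈ range γ := by
  have hcos : 0 < Real.cos φ := Real.cos_pos_of_mem_Ioo ⟨by linarith, hφ'⟩
  have htan : 0 < Real.tan φ := Real.tan_pos_of_pos_of_lt_pi_div_two hφ hφ'
  obtain ⟨z, hz, him, hM⟩ := sym_jordan hγ hinj hsym htan (l := 1 - 2 * k * Real.cos φ)
    (by linarith) (by have : 0 < 2 * k * Real.cos φ := by positivity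
                      linarith) hz0 him0 hX
  have hsin : 2 * k * Real.cos φ * Real.tan φ = 2 * k * Real.sin φ := by
    rw [Real.tan_eq_sin_div_cos]; field_simp
  refine ⟨(starRingEnd ℂ) z - z, z, ?_, ?_⟩
  · intro h
    have := congrArg Complex.im h
    simp only [Complex.sub_im, Complex.conj_im, Complex.zero_im] at this
    linarith
  · intro v hv
    rw [exp_coord, exp_coord'] at hv
    simp only [Set.mem_insert_iff, Set.mem_singleton_iff] at hv
    rcases hv with rfl | rfl | rfl | rfl
    · rw [mul_zero, zero_add]; exact hz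
    · rw [mul_one, sub_add_cancel]; exact hsym z hz
    · have e : ((starRingEnd ℂ) z - z) * (1 - ⟨k * Real.cos φ, -(k * Real.sin φ)⟩) + z
          = (starRingEnd ℂ) (Mm (Real.tan φ) (1 - 2 * k * Real.cos φ) z) := by
        unfold Mm
        apply Complex.ext
        · simp only [Complex.add_re, Complex.mul_re, Complex.sub_re, Complex.sub_im,
            Complex.conj_re, Complex.conj_im, Complex.one_re, Complex.one_im]
          have : (1 - (1 - 2 * k * Real.cos φ)) * Real.tan φ * z.im
              = 2 * k * Real.sin φ * z.im := by rw [← hsin]; ring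
          rw [this]; ring
        · simp only [Complex.add_im, Complex.mul_im, Complex.sub_re, Complex.sub_im,
            Complex.conj_re, Complex.conj_im, Complex.one_re, Complex.one_im]
          ring
      rw [e]
      exact hsym _ hM
    · have e : ((starRingEnd ℂ) z - z) * ⟨k * Real.cos φ, k * Real.sin φ⟩ + z
          = Mm (Real.tan φ) (1 - 2 * k * Real.cos φ) z := by
        unfold Mm
        apply Complex.ext
        · simp only [Complex.add_re, Complex.mul_re, Complex.sub_re, Complex.sub_im,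
            Complex.conj_re, Complex.conj_im]
          have : (1 - (1 - 2 * k * Real.cos φ)) * Real.tan φ * z.im
              = 2 * k * Real.sin φ * z.im := by rw [← hsin]; ring
          rw [this]; ring
        · simp only [Complex.add_im, Complex.mul_im, Complex.sub_re, Complex.sub_im,
            Complex.conj_re, Complex.conj_im]
          ring
      rw [e]
      exact hM

theorem trap_sym (φ k : ℝ) (hφ : 0 < φ) (hφ' : φ < Real.pi / 2) (hk : 0 < k)
    (hk' : 2 * k * Real.cos φ < 1) (γ : Circle → ℂ) (hγ : Continuous γ)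
    (hinj : Function.Injective γ) (hsym : ∀ z ∈ range γ, (starRingEnd ℂ) z ∈ range γ)
    (z0 : ℂ) (hz0 : z0 ∈ range γ) (him0 : z0.im ≠ 0)
    (hX : (∀ x : ℝ, (x : ℂ) ∈ range γ → x ≤ z0.re + Real.tan φ * |z0.im|) ∨
      (∀ x : ℝ, (x : ℂ) ∈ range γ → z0.re - Real.tan φ * |z0.im| ≤ x)) :
    ∃ α β : ℂ, α ≠ 0 ∧
      ∀ z ∈ ({0, 1, 1 - k * exp (-(φ * I)), k * exp (φ * I)} : Set ℂ), α * z + β ∈ range γ := by
  rcases hX with hX | hX
  · exact trap_right φ k hφ hφ' hk hk' hγ hinj hsym hz0 him0 hX
  · have hr : ∀ z, z ∈ range (fun w => -γ w) ↔ -z ∈ range γ := by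
      intro z
      constructor
      · rintro ⟨w, rfl⟩
        exact ⟨w, by simp⟩
      · rintro ⟨w, hw⟩
        exact ⟨w, by simp only [hw, neg_neg]⟩
    obtain ⟨α, β, hα, hT⟩ := trap_right φ k hφ hφ' hk hk' (γ := fun w => -γ w) hγ.neg
      (fun x y hxy => hinj (neg_injective hxy))
      (by
        intro z hz
        rw [hr] at hz ⊢
        have := hsym _ hz
        rwa [map_neg] at this)
      (z0 := -z0) (by rw [hr, neg_neg]; exact hz0) (by simpa using him0)
      (by
        intro x hx
        rw [hr] at hx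
        have := hX (-x) (by push_cast; exact hx)
        rw [Complex.neg_re, Complex.neg_im, abs_neg]
        linarith)
    refine ⟨-α, -β, neg_ne_zero.mpr hα, ?_⟩
    intro z hz
    have := (hr _).mp (hT z hz)
    rwa [show -(α * z + β) = -α * z + -β by ring] at this

end Pool.Agent.SymTrap
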